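import Pool.Agent.H.MP_32acdc_lc.Defs

set_option autoImplicit false

namespace Pool.Agent.H.MP_32acdc_lc

open Filter FreeGroup

section
variable {L X : Type} [CommRing L] [LinearOrder L] [IsStrictOrderedRing L] (d : X → X → L)

def Bt (x z y : X) : Prop := d x z + d z y = d x y

structure Good : Prop where
  m : IsMetric d
  a : ∀ x y t, 0 ≤ t → t ≤ d x y → ∃ z, d x z = t ∧ Bt d x z y
  b : ∀ x y z w, Bt d x z y → Bt d x w y → d x z ≤ d x w → Bt d x z w
  c : ∀ x y z, ∃ m, Bt d x m y ∧ Bt d x m z ∧ Bt d y m z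

variable {d}

theorem Good.seg (h : Good d) {S x y} : Seg d S x y ↔ S = {z | Bt d x z y} := by
  obtain ⟨m1, m2, m3, m4⟩ := h.m
  constructor
  · rintro ⟨a, b, f, h1, h2, rfl, h3⟩
    have k : f '' Set.Icc a b = {z | Bt d (f a) z (f b)} := by
      have e := h2 a ⟨le_rfl, h1⟩ b ⟨h1, le_rfl⟩
      have k : ∀ s ∈ Set.Icc a b, d (f a) (f s) = s - a ∧ Bt d (f a) (f s) (f b) := fun s hs => by
        have e1 := h2 a ⟨le_rfl, h1⟩ s hs
        have e2 := h2 s hs b ⟨h1, le_rfl⟩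
        rw [abs_of_nonpos (by linarith [hs.1, hs.2])] at e e1 e2
        exact ⟨by linarith, by rw [Bt]; linarith⟩
      refine Set.Subset.antisymm (by rintro _ ⟨s, hs, rfl⟩; exact (k s hs).2) fun z (hz : Bt ..) => ?_
      have hs : a + d (f a) z ∈ Set.Icc a b := by
        rw [abs_of_nonpos (by linarith), ← hz] at e
        exact ⟨by linarith [m1 (f a) z], by linarith [m1 z (f b)]⟩
      obtain ⟨k1, k2⟩ := k _ hs
      have := h.b _ _ _ _ k2 hz (by linarith)
      exact ⟨_, hs, (m2 ..).1 (by rw [Bt] at this; linarith)⟩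
    rcases h3 with ⟨rfl, rfl⟩ | ⟨rfl, rfl⟩
    · exact k
    · rw [k]
      ext z
      simp only [Bt, Set.mem_ofPred_eq, m3 z, m3 (f a) (f b), add_comm (d (f a) z)]
  · rintro rfl
    have : ∀ t, ∃ z, t ∈ Set.Icc 0 (d x y) → d x z = t ∧ Bt d x z y := fun t => by
      by_cases e : t ∈ Set.Icc 0 (d x y)
      exacts [(h.a x y t e.1 e.2).imp fun _ h _ => h, ⟨x, fun a => (e a).elim⟩]
    choose f hf using this
    have k : ∀ s ∈ Set.Icc 0 (d x y), ∀ t ∈ Set.Icc 0 (d x y), s ≤ t → d (f s) (f t) = |s - t| := fun s hs t ht e => by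
      have := h.b _ _ _ _ (hf s hs).2 (hf t ht).2 (by rwa [(hf s hs).1, (hf t ht).1])
      rw [Bt, (hf s hs).1, (hf t ht).1] at this
      rw [abs_of_nonpos (by linarith)]
      linarith
    refine ⟨0, d x y, f, m1 .., fun s hs t ht => (le_total s t).elim (k s hs t ht) fun e => by
      rw [m3, abs_sub_comm, k t ht s hs e], Set.Subset.antisymm (fun z (hz : Bt ..) => ?_)
      (by rintro _ ⟨s, hs, rfl⟩; exact (hf s hs).2), .inl ⟨((m2 ..).1 (hf 0 ⟨le_rfl, m1 ..⟩).1).symm, (m2 ..).1 ?_⟩⟩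
    · have hs : d x z ∈ Set.Icc 0 (d x y) := ⟨m1 .., by rw [← hz]; linarith [m1 z y]⟩
      have := h.b _ _ _ _ (hf _ hs).2 hz (hf _ hs).1.le
      exact ⟨_, hs, (m2 ..).1 (by rw [Bt, (hf _ hs).1] at this; linarith)⟩
    · obtain ⟨a, b⟩ := hf _ ⟨m1 x y, le_rfl⟩
      rw [Bt] at b
      linarith

theorem Good.tree (h : Good d) : IsTree d := by
  obtain ⟨m1, m2, m3, m4⟩ := h.m
  simp only [IsTree, h.seg]
  refine ⟨h.m, fun x y => ⟨_, rfl⟩, ?_, ?_⟩
  · rintro _ _ x y z rfl rfl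
    obtain ⟨m, a, b, c⟩ := h.c x y z
    refine ⟨x, m, Set.ext fun w => ⟨fun ⟨(e : Bt ..), (f : Bt ..)⟩ => h.b _ _ _ _ e a ?_, fun (e : Bt ..) => ?_⟩⟩
    · by_contra! k
      simp only [Bt] at *
      linarith [m4 y w z, m3 y w, m3 y m]
    · simp only [Bt, Set.mem_inter_iff, Set.mem_ofPred_eq] at *
      constructor <;> apply le_antisymm <;> linarith [m4 w m y, m4 w m z, m4 x w y, m4 x w z]
  · rintro _ _ x y z rfl rfl e
    obtain ⟨m, a, b, c⟩ := h.c x y z
    obtain rfl : m = x := show m ∈ ({x} : Set X) from e ▸ ⟨a, b⟩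
    refine ⟨y, z, Set.ext fun w => ⟨?_, fun (e : Bt ..) => ?_⟩⟩
    · rintro ((e : Bt ..) | (e : Bt ..)) <;> simp only [Bt, Set.mem_ofPred_eq] at * <;> apply le_antisymm <;>
        linarith [m4 w m z, m4 y m w, m4 y w z, m3 y w, m3 y m, m3 m w]
    · rcases le_total (d y w) (d y m) with k | k
      · have := h.b _ _ _ _ e c k
        simp only [Bt, Set.mem_union, Set.mem_ofPred_eq] at *
        exact .inl (by linarith [m3 y w, m3 y m, m3 m w])
      · have := h.b _ _ _ _ c e k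
        simp only [Bt, Set.mem_union, Set.mem_ofPred_eq] at *
        exact .inr (by linarith)

end

variable {I : Type} [DecidableEq I]

omit [DecidableEq I] in
theorem rsub {u w : List (I × Bool)} (h : IsReduced w) (k : u <:+: w) : IsReduced u := by
  obtain ⟨a, b, rfl⟩ := k
  exact List.IsChain.right_of_append (List.IsChain.left_of_append h)

theorem tw {u : List (I × Bool)} {g : FreeGroup I} (h : u <:+: g.toWord) : (mk u).toWord = u :=
  (rsub isReduced_toWord h).reduce_eq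

theorem canc (a b : FreeGroup I) : ∃ u c v, a.toWord = u ++ c ∧ b.toWord = invRev c ++ v ∧ (a * b).toWord = u ++ v := by
  have : ∀ B A : List (I × Bool), IsReduced A → IsReduced B →
      ∃ u c v, A = u ++ c ∧ B = invRev c ++ v ∧ IsReduced (u ++ v) := fun B => by
    induction B with
    | nil => exact fun A h _ => ⟨A, [], [], by simp, by simp, by simpa⟩
    | cons y B ih =>
      intro A h h'
      rcases A.eq_nil_or_concat with rfl | ⟨A, x, rfl⟩
      · exact ⟨[], [], _, rfl, rfl, h'⟩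
      by_cases e : x = (y.1, !y.2)
      · obtain ⟨u, c, v, rfl, rfl, k⟩ := ih A (rsub h ⟨[], [x], by simp⟩) (rsub h' (by simp [List.infix_cons]))
        exact ⟨u, c ++ [x], v, by simp, by simp [invRev, e], k⟩
      · refine ⟨_, [], _, by simp, rfl, List.isChain_append.2 ⟨h, h', ?_⟩⟩
        obtain ⟨x, s⟩ := x
        simp_all
  obtain ⟨u, c, v, h1, h2, h3⟩ := this _ _ (isReduced_toWord (x := a)) (isReduced_toWord (x := b))
  refine ⟨u, c, v, h1, h2, ?_⟩
  rw [← h3.reduce_eq, ← toWord_mk, ← a.mk_toWord, ← b.mk_toWord, h1, h2]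
  simp [← mul_mk, ← inv_mk]

def dF (x y : FreeGroup I) : ℤ := (x⁻¹ * y).norm

theorem goodF : Good (dF (I := I)) := by
  have k : ∀ {x z y : FreeGroup I}, Bt dF x z y → (x⁻¹ * y).toWord = (x⁻¹ * z).toWord ++ (z⁻¹ * y).toWord := fun {x z y} h =>
    List.Sublist.eq_of_length (by simpa [mul_assoc] using toWord_mul_sublist (x⁻¹ * z) (z⁻¹ * y)) (by
      simp only [Bt, dF, FreeGroup.norm] at h; simp; omega)
  refine ⟨⟨by simp [dF], by simp [dF, inv_mul_eq_one], fun x y => by rw [dF, ← norm_inv_eq]; simp [dF],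
    fun x y z => by simpa [dF, mul_assoc] using Int.ofNat_le.2 (norm_mul_le (x⁻¹ * y) (y⁻¹ * z))⟩,
    fun x y t a b => ?_, fun x y z w a b c => ?_, fun x y z => ?_⟩
  · lift t to ℕ using a
    have e : (x * mk ((x⁻¹ * y).toWord.take t))⁻¹ * y = mk ((x⁻¹ * y).toWord.drop t) := by
      rw [mul_inv_rev, mul_assoc, inv_mul_eq_iff_eq_mul, mul_mk, List.take_append_drop, mk_toWord]
    refine ⟨x * mk ((x⁻¹ * y).toWord.take t), ?_⟩
    simp only [dF, FreeGroup.norm, Bt, e, inv_mul_cancel_left, tw (List.take_prefix ..).isInfix, tw (List.drop_suffix ..).isInfix,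
      List.length_take, List.length_drop] at b ⊢
    omega
  · obtain ⟨r, e⟩ := List.prefix_of_prefix_length_le ⟨_, (k a).symm⟩ ⟨_, (k b).symm⟩ (Int.ofNat_le.1 c)
    have f : z⁻¹ * w = mk r := by
      have := congrArg mk e
      rw [← mul_mk, mk_toWord, mk_toWord, mul_assoc, mul_right_inj] at this
      rw [← this, inv_mul_cancel_left]
    simp [Bt, dF, FreeGroup.norm, f, ← e, tw (g := x⁻¹ * w) (u := r) (e ▸ (List.suffix_append ..).isInfix)]
  · obtain ⟨u, c, v, a, b, e⟩ := canc (y⁻¹ * x) (x⁻¹ * z)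
    have h1 : x = y * mk u * mk c := by rw [mul_assoc, mul_mk, ← a, mk_toWord]; simp
    have h2 : z = y * mk u * mk v := by rw [mul_assoc, mul_mk, ← e, mk_toWord]; group
    have f1 := tw (u := u) (g := y⁻¹ * x) (a ▸ (List.prefix_append ..).isInfix)
    have f2 := tw (u := c) (g := y⁻¹ * x) (a ▸ (List.suffix_append ..).isInfix)
    have f3 := tw (u := v) (g := x⁻¹ * z) (b ▸ (List.suffix_append ..).isInfix)
    have g1 : x⁻¹ * y = (y⁻¹ * x)⁻¹ := by simp
    have g2 : x⁻¹ * (y * mk u) = (mk c)⁻¹ := by rw [h1]; group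
    have g3 : (y * mk u)⁻¹ * y = (mk u)⁻¹ := by group
    have g4 : (y * mk u)⁻¹ * z = mk v := by rw [h2]; group
    rw [mul_assoc, mul_inv_cancel_left] at e
    refine ⟨y * mk u, ?_⟩
    simp only [Bt, dF, g1, g2, g3, g4, FreeGroup.norm, toWord_inv, inv_mul_cancel_left, a, b, e, f1, f2, f3, invRev_length,
      List.length_append]
    omega

noncomputable abbrev U : Filter ℕ := (hyperfilter ℕ : Ultrafilter ℕ)

noncomputable def dG : Germ U (FreeGroup I) → Germ U (FreeGroup I) → Germ U ℤ := Germ.map₂ dF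

theorem goodG : Good (dG (I := I)) := by
  have g := goodF (I := I)
  obtain ⟨m1, m2, m3, m4⟩ := g.m
  have bt : ∀ x y z : ℕ → FreeGroup I, Bt dG (x : Germ U (FreeGroup I)) (y : Germ U (FreeGroup I)) (z : Germ U (FreeGroup I)) ↔
      ∀ᶠ n in U, Bt dF (x n) (y n) (z n) :=
    fun _ _ _ => Germ.coe_eq
  refine ⟨⟨?_, ?_, ?_, ?_⟩, ?_, ?_, ?_⟩
  · rintro ⟨x⟩ ⟨y⟩
    exact Eventually.of_forall fun n => m1 ..
  · rintro ⟨x⟩ ⟨y⟩
    exact Germ.coe_eq.trans ((eventually_congr (.of_forall fun n => m2 ..)).trans Germ.coe_eq.symm)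
  · rintro ⟨x⟩ ⟨y⟩
    exact Germ.coe_eq.2 (.of_forall fun n => m3 ..)
  · rintro ⟨x⟩ ⟨y⟩ ⟨z⟩
    exact Eventually.of_forall fun n => m4 ..
  · rintro ⟨x⟩ ⟨y⟩ ⟨t⟩ (a : ∀ᶠ n in U, _) (b : ∀ᶠ n in U, _)
    obtain ⟨z, c⟩ := ((a.and b).mono fun n h => g.a (x n) (y n) (t n) h.1 h.2).choice
    exact ⟨z, Germ.coe_eq.2 (c.mono fun n h => h.1), (bt ..).2 (c.mono fun n h => h.2)⟩
  · rintro ⟨x⟩ ⟨y⟩ ⟨z⟩ ⟨w⟩ a b (c : ∀ᶠ n in U, _)
    exact (bt ..).2 ((((bt ..).1 a).and (((bt ..).1 b).and c)).mono fun n h => g.b _ _ _ _ h.1 h.2.1 h.2.2)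
  · rintro ⟨x⟩ ⟨y⟩ ⟨z⟩
    choose m a b c using fun n => g.c (x n) (y n) (z n)
    exact ⟨m, (bt ..).2 (.of_forall a), (bt ..).2 (.of_forall b), (bt ..).2 (.of_forall c)⟩

theorem treeFree (H : Subgroup (Germ U (FreeGroup I))) : TreeFree H := by
  refine ⟨Germ U ℤ, inferInstance, inferInstance, inferInstance, Germ U (FreeGroup I), inferInstance, dG,
    inferInstance, goodG.tree, ?_, ?_⟩
  · rintro ⟨⟨g⟩, -⟩ ⟨x⟩ ⟨y⟩
    exact Germ.coe_eq.2 (.of_forall fun n => by simp [dF, mul_assoc])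
  · rintro ⟨⟨g⟩, _⟩ h x
    have : ∀ g : Germ U (FreeGroup I), g * g = 1 → g = 1 := by
      rintro ⟨g⟩ e
      exact Germ.coe_eq.2 ((Germ.coe_eq.1 e).mono fun n h => (pow_eq_one_iff.1 ((sq _).trans h)).resolve_right two_ne_zero)
    exact ⟨fun e => h (Subtype.ext (mul_eq_right.1 e)), fun e => h (Subtype.ext (this _ (mul_eq_right.1
      ((mul_assoc ..).trans e))))⟩

end Pool.Agent.H.MP_32acdc_lc
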