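import Pool.Agent.H.MP_32acdc_lc.A

set_option autoImplicit false

namespace Pool.Agent.H.MP_32acdc_lc

open FreeGroup List

theorem cen_cyc {J : Type} {z : FreeGroup J} (h : z ≠ 1) (hc : ∀ y, Commute z y) : IsCyclic (FreeGroup J) := by
  classical
  obtain ⟨⟨c, s⟩, w, e⟩ := exists_cons_of_ne_nil (mt toWord_eq_nil_iff.1 h)
  have : ∀ a, a = c := fun a => by_contra fun k => by
    obtain ⟨u, x, f⟩ := (eq_nil_or_concat' z.toWord).resolve_left (by simp [e])
    have r := isReduced_toWord (x := z)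
    have := congrArg toWord (hc (mk [(a, x.2)])).eq
    rw [← z.mk_toWord, mul_mk, mul_mk, toWord_mk, toWord_mk, IsReduced.reduce_eq, IsReduced.reduce_eq, e] at this
    · exact k (Prod.ext_iff.1 (cons.inj this).1).1.symm
    · rw [e] at r ⊢
      exact isReduced_cons_cons.2 ⟨by simp [k], r⟩
    · exact isChain_append.2 ⟨r, by simp, by simp [f]⟩
  let : Unique J := ⟨⟨c⟩, this⟩
  infer_instance

theorem root {I : Type} {x : FreeGroup I} (h : x ≠ 1) : ∃ r, ∀ y, Commute x y → ∃ a : ℤ, y = r ^ a := by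
  let C := Subgroup.centralizer {x}
  have m : ∀ y, y ∈ C ↔ Commute x y := fun y => Subgroup.mem_centralizer_singleton_iff.trans eq_comm
  let e := IsFreeGroup.toFreeGroup C
  have := cen_cyc (z := e ⟨x, (m x).2 rfl⟩) (by simpa [Subtype.ext_iff] using h) fun y => by
    obtain ⟨y, rfl⟩ := e.surjective y
    exact Commute.map (x := ⟨x, _⟩) (Subtype.ext ((m _).1 y.2).eq) e
  obtain ⟨r, hr⟩ := (e.isCyclic.2 this).exists_zpow_surjective
  exact ⟨r, fun y k => let ⟨a, b⟩ := hr ⟨y, (m y).2 k⟩; ⟨a, (congrArg Subtype.val b).symm⟩⟩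

section
variable {α : Type}

abbrev rep (m : ℕ) (q : List α) : List α := (replicate m q).flatten

theorem rep_get {q : List α} {m t : ℕ} (h : t < m * q.length) : (rep m q)[t]? = q[t % q.length]? := by
  induction m generalizing t with
  | zero => simp at h
  | succ m ih =>
    rw [rep, replicate_succ, flatten_cons]
    rcases lt_or_ge t q.length with k | k
    · rw [getElem?_append_left k, Nat.mod_eq_of_lt k]
    · rw [getElem?_append_right k, ih (by rw [Nat.succ_mul] at h; omega), Nat.mod_eq_sub_mod k]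

theorem per {q w : List α} {m : ℕ} (h : w <:+: rep m q) : ∃ k, ∀ t < w.length, w[t]? = q[(t + k) % q.length]? := by
  obtain ⟨a, b, e⟩ := h
  refine ⟨a.length, fun t l => ?_⟩
  have := congrArg length e
  rw [← rep_get (m := m) (by simp at this; omega), ← e, append_assoc, getElem?_append_right (by simp),
    getElem?_append_left (by simpa)]
  simp

theorem fw {q s w : List α} {m k : ℕ} (hq : q.Nodup) (h1 : w <:+: rep m q) (h2 : w <:+: rep k s)
    (h3 : s.length < w.length) : ∃ s1 s2 q1 q2 e, s = s1 ++ s2 ∧ q = q1 ++ q2 ∧ s2 ++ s1 = rep e (q2 ++ q1) := by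
  have h0 : 0 < q.length := Nat.pos_of_ne_zero fun e => by
    have := h1.length_le
    simp [e] at this
    simp [this] at h3
  obtain ⟨i, h1⟩ := per h1
  obtain ⟨j, h2⟩ := per h2
  obtain ⟨e, he⟩ : q.length ∣ s.length := by
    have a := (h1 0 (by omega)).symm.trans (h2 0 (by omega))
    rw [zero_add j, ← Nat.add_mod_left s.length j, ← h2 _ h3, h1 _ h3] at a
    have := (getElem?_inj (Nat.mod_lt _ h0) hq).1 a
    simpa using (Nat.modEq_iff_dvd' (by omega)).1 this
  refine ⟨_, _, _, _, e, (take_append_drop (j % s.length) s).symm, (take_append_drop (i % q.length) q).symm, ?_⟩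
  rw [← rotate_eq_drop_append_take_mod, ← rotate_eq_drop_append_take_mod]
  refine ext_getElem?' fun t l => ?_
  replace l : t < s.length := by simpa [he, mul_comm] using l
  rw [getElem?_rotate l, rep_get (by simpa [he, mul_comm] using l), length_rotate, getElem?_rotate (Nat.mod_lt _ h0),
    ← h2 t (by omega), h1 t (by omega), Nat.mod_add_mod]

end

variable {I : Type}

def wd (p : List I) : List (I × Bool) := p.map (·, true)

def Pc (p : List I) (w : List (I × Bool)) : Prop := ∃ m, w <:+: rep m (wd p) ∨ w <:+: rep m (invRev (wd p))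

def Dec : List (List I) → List (I × Bool) → Prop
  | [], w => w = []
  | p :: ps, w => ∃ a b, w = a ++ b ∧ Pc p a ∧ Dec ps b

variable {p : List I} {ps qs : List (List I)} {u v w : List (I × Bool)}

theorem Pc.sub (h : Pc p w) (k : u <:+: w) : Pc p u := h.imp fun _ h => h.imp k.trans k.trans

theorem inv_rep (m : ℕ) (q : List (I × Bool)) : invRev (rep m q) = rep m (invRev q) := by
  simp [invRev, rep, reverse_flatten]

theorem inv_inf (h : u <:+: w) : invRev u <:+: invRev w := by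
  obtain ⟨a, b, rfl⟩ := h
  simp

theorem Pc.inv (h : Pc p w) : Pc p (invRev w) :=
  h.imp fun m h => h.symm.imp (fun h => by simpa [inv_rep] using inv_inf h) fun h => by simpa [inv_rep] using inv_inf h

theorem Dec.append (a : Dec ps u) (b : Dec qs v) : Dec (ps ++ qs) (u ++ v) := by
  induction ps generalizing u with
  | nil => cases a; exact b
  | cons p ps ih =>
    obtain ⟨c, d, rfl, e, f⟩ := a
    exact ⟨c, d ++ v, by simp, e, ih f⟩

theorem Dec.nil : Dec ps [] := by
  induction ps with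
  | nil => rfl
  | cons p ps ih => exact ⟨[], [], rfl, ⟨0, by simp⟩, ih⟩

theorem Dec.sub (a : Dec ps w) (k : u <:+: w) : Dec ps u := by
  induction ps generalizing u w with
  | nil => cases a; exact infix_nil.1 k
  | cons p ps ih =>
    obtain ⟨c, d, rfl, e, f⟩ := a
    rcases infix_append_iff.1 k with k | k | ⟨x, y, rfl, k, l⟩
    exacts [⟨u, [], by simp, e.sub k, .nil⟩, ⟨[], u, rfl, e.sub (by simp), ih f k⟩,
      ⟨x, y, rfl, e.sub k.isInfix, ih f l.isInfix⟩]

theorem Dec.inv (a : Dec ps w) : Dec ps.reverse (invRev w) := by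
  induction ps generalizing w with
  | nil => cases a; rfl
  | cons p ps ih =>
    obtain ⟨c, d, rfl, e, f⟩ := a
    rw [reverse_cons, invRev_append]
    exact (ih f).append ⟨_, [], by simp, e.inv, rfl⟩

theorem Pc.dec (a : Pc p w) (h : p ∈ ps) : Dec ps w := by
  obtain ⟨x, y, rfl⟩ := append_of_mem h
  exact Dec.nil.append (u := []) ⟨w, [], by simp, a, .nil⟩

theorem Dec.long (a : Dec ps w) {n : ℕ} (h : ps.length * n < w.length) :
    ∃ p ∈ ps, ∃ u, u <:+: w ∧ Pc p u ∧ n < u.length := by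
  induction ps generalizing w with
  | nil => cases a; simp at h
  | cons p ps ih =>
    obtain ⟨c, d, rfl, e, f⟩ := a
    by_cases k : n < c.length
    · exact ⟨p, by simp, c, (prefix_append ..).isInfix, e, k⟩
    · obtain ⟨q, a, u, b, c⟩ := ih f (by simp [Nat.succ_mul] at h; omega)
      exact ⟨q, by simp [a], u, b.trans (suffix_append ..).isInfix, c⟩

variable [DecidableEq I]

def DG (ps : List (List I)) (g : FreeGroup I) : Prop := Dec ps g.toWord

theorem DG.mul {a b : FreeGroup I} (h : DG ps a) (k : DG qs b) : DG (ps ++ qs) (a * b) := by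
  obtain ⟨u, c, v, h1, h2, h3⟩ := canc a b
  rw [DG, h3]
  exact (h.sub (h1 ▸ (prefix_append ..).isInfix)).append (k.sub (h2 ▸ (suffix_append ..).isInfix))

theorem DG.inv {a : FreeGroup I} (h : DG ps a) : DG ps.reverse a⁻¹ := by
  rw [DG, toWord_inv]
  exact Dec.inv h

omit [DecidableEq I] in
theorem mk_rep (m : ℕ) (q : List (I × Bool)) : mk (rep m q) = mk q ^ m := by
  induction m <;> simp_all [rep, replicate_succ, ← mul_mk, pow_succ', ← one_eq_mk]

omit [DecidableEq I] in
theorem red_rep (m : ℕ) (p : List I) : IsReduced (rep m (wd p)) :=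
  isChain_iff_getElem.2 fun i h _ => by
    have : ∀ x ∈ rep m (wd p), x.2 = true := by simp +contextual [wd]
    rw [this _ (getElem_mem _), this _ (getElem_mem _)]

theorem Pc.dg (a : Pc p w) (h : p ∈ ps) : DG ps (mk w) := by
  have : IsReduced w := by
    obtain ⟨m, a | a⟩ := a
    · exact rsub (red_rep m p) a
    · rw [← inv_rep] at a
      exact rsub (.of_reduce_eq (by rw [reduce_invRev, (red_rep m p).reduce_eq])) a
  rw [DG, toWord_mk, this.reduce_eq]
  exact a.dec h

theorem dg_pow (p : List I) (k : ℤ) : DG [p] (mk (wd p) ^ k) := by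
  obtain ⟨m, rfl | rfl⟩ := k.eq_nat_or_neg
  · rw [zpow_natCast, ← mk_rep]
    exact Pc.dg ⟨m, .inl infix_rfl⟩ (by simp)
  · rw [zpow_neg, zpow_natCast, ← inv_pow, inv_mk, ← mk_rep]
    exact Pc.dg ⟨m, .inr infix_rfl⟩ (by simp)

theorem periodic (hp : ∀ p ∈ ps, p.Nodup) {r : FreeGroup I} {a : ℤ} (h : DG ps (r ^ a)) (h1 : r ≠ 1)
    (h2 : ps.length < a.natAbs) : ∃ p ∈ ps, ∃ g, ∃ e : ℤ, DG (ps ++ ps.reverse) g ∧ r = g * mk (wd p) ^ e * g⁻¹ := by
  suffices ∀ (r : FreeGroup I) (m : ℕ), DG ps (r ^ m) → r ≠ 1 → ps.length < m →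
      ∃ p ∈ ps, ∃ g, ∃ e : ℤ, DG (ps ++ ps.reverse) g ∧ r = g * mk (wd p) ^ e * g⁻¹ by
    obtain ⟨m, rfl | rfl⟩ := a.eq_nat_or_neg
    · exact this r m (by simpa using h) h1 (by simpa using h2)
    · obtain ⟨p, a, g, e, b, c⟩ := this r⁻¹ m (by simpa using h) (by simpa) (by simpa using h2)
      exact ⟨p, a, g, -e, b, by rw [← inv_inv r, c]; group⟩
  intro r m h h1 h2
  have k := reduceCyclically.conj_conjugator_reduceCyclically r.toWord
  rw [DG, toWord_pow, reduceCyclically.reduce_flatten_replicate isReduced_toWord, if_neg (by omega)] at h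
  generalize reduceCyclically.conjugator r.toWord = c, reduceCyclically r.toWord = s at h k
  have e : r = mk c * mk s * (mk c)⁻¹ := by rw [inv_mk, mul_mk, mul_mk, k, mk_toWord]
  have : 0 < s.length := length_pos_iff.2 (by rintro rfl; exact h1 (by rw [e, ← one_eq_mk]; group))
  obtain ⟨p, a1, u, a2, a3, a4⟩ := (h.sub (infix_append ..)).long (n := s.length) (by simp; nlinarith)
  have nd : (wd p).Nodup := (hp p a1).map fun _ _ e => (Prod.ext_iff.1 e).1
  have fin : ∀ q m (ε : ℤ), q.Nodup → u <:+: rep m q → mk q = mk (wd p) ^ ε → Pc p q →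
      ∃ p ∈ ps, ∃ g, ∃ e : ℤ, DG (ps ++ ps.reverse) g ∧ r = g * mk (wd p) ^ e * g⁻¹ := fun q n ε b1 b2 b3 b4 => by
    obtain ⟨s1, s2, q1, q2, f, rfl, rfl, b5⟩ := fw b1 b2 a2 a4
    refine ⟨p, a1, mk (c ++ s1) * (mk q1)⁻¹, ε * f, DG.mul ?_ ((b4.sub (prefix_append ..).isInfix).dg a1).inv, ?_⟩
    · rw [DG, tw (g := r) ⟨[], s2 ++ invRev c, by simp [← k]⟩]
      obtain ⟨m, rfl⟩ := Nat.exists_eq_succ_of_ne_zero (show m ≠ 0 by omega)
      exact h.sub ⟨[], s2 ++ rep m (s1 ++ s2) ++ invRev c, by simp [replicate_succ]⟩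
    · have := congrArg mk b5
      rw [mk_rep, ← mul_mk, ← mul_mk, show mk q2 * mk q1 = (mk q1)⁻¹ * mk (q1 ++ q2) * (mk q1)⁻¹⁻¹ by
        rw [← mul_mk]; group, conj_pow, b3, ← eq_mul_inv_iff_mul_eq] at this
      rw [e, ← mul_mk, ← mul_mk, this, zpow_mul, zpow_natCast]
      group
  obtain ⟨n, a3 | a3⟩ := a3
  · exact fin _ n 1 nd a3 (by simp) ⟨1, .inl (by simp [rep])⟩
  · refine fin _ n (-1) ?_ a3 (by simp [inv_mk]) ⟨1, .inr (by simp [rep])⟩
    exact nodup_reverse.2 (nd.map fun _ _ e => by simpa [Prod.ext_iff] using e)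

def φ (c : I → ℤ) (g : FreeGroup I) : ℤ := (lift (fun i => Multiplicative.ofAdd (c i)) g).toAdd

omit [DecidableEq I] in
@[simp] theorem φ_mul (c : I → ℤ) (a b) : φ c (a * b) = φ c a + φ c b := by simp [φ]
omit [DecidableEq I] in
@[simp] theorem φ_inv (c : I → ℤ) (a) : φ c a⁻¹ = -φ c a := by simp [φ]
omit [DecidableEq I] in
@[simp] theorem φ_pow (c : I → ℤ) (a) (k : ℤ) : φ c (a ^ k) = k * φ c a := by simp [φ]
omit [DecidableEq I] in
theorem φ_wd (c : I → ℤ) (p) : φ c (mk (wd p)) = (p.map c).sum := by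
  induction p <;> simp_all [φ, wd]
omit [DecidableEq I] in
@[simp] theorem φ_one (p : List I) : φ 1 (mk (wd p)) = p.length := by
  rw [φ_wd]
  induction p <;> simp_all [add_comm]

theorem φ_cnt (hp : p.Nodup) (i) : φ (Pi.single i 1) (mk (wd p)) = if i ∈ p then 1 else 0 := by
  rw [φ_wd]
  induction p <;> grind

def Ab (g : FreeGroup I) (p : List I) : Prop := ∃ α ≠ 0, ∀ i, φ (Pi.single i 1) g = if i ∈ p then α else 0

theorem ab_of (hp : p.Nodup) (h0 : p ≠ []) {g x : FreeGroup I} {k : ℤ} (hk : k ≠ 0) (hx : x ≠ 1)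
    (h : Commute (g * mk (wd p) ^ k * g⁻¹) x) : Ab x p := by
  obtain ⟨r, hr⟩ := root hx
  obtain ⟨a, e⟩ := hr _ h.symm
  obtain ⟨b, rfl⟩ := hr x rfl
  have := fun i => congrArg (φ (Pi.single i 1)) e
  simp only [φ_mul, φ_inv, φ_pow, φ_cnt hp] at this
  obtain ⟨j, hj⟩ := exists_mem_of_ne_nil p h0
  have b0 : b ≠ 0 := by rintro rfl; simp at hx
  replace : ∀ i, a * φ (Pi.single i 1) r = if i ∈ p then k else 0 := fun i => by
    have := this i
    split_ifs at this ⊢ <;> linarith
  have k1 := this j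
  rw [if_pos hj] at k1
  obtain ⟨a0, k0⟩ := mul_ne_zero_iff.1 (k1 ▸ hk)
  refine ⟨b * φ (Pi.single j 1) r, mul_ne_zero b0 k0, fun i => ?_⟩
  have k2 := this i
  rw [φ_pow]
  split_ifs at k2 ⊢
  · rw [mul_left_cancel₀ a0 (k2.trans k1.symm)]
  · rw [(mul_eq_zero.1 k2).resolve_left a0, mul_zero]

end Pool.Agent.H.MP_32acdc_lc
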