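import Pool.Agent.H.MP_32acdc_lc.B

set_option autoImplicit false

namespace Pool.Agent.H.MP_32acdc_lc

open Filter FreeGroup

section
variable {G : Type} [Group G]

def Sq (y : G) : Prop := ∃ w, w * w = y
def Big (x : G) : Prop := ¬x = 1 ∧ ∃ y z, Commute x y ∧ Commute x z ∧ ¬Sq y ∧ ¬Sq z ∧ ¬Sq (y * z)
def Ap (x y : G) : Prop := ¬y = 1 ∧ ∃ g, Commute (g * x * g⁻¹) y
def T (x y z : G) : Prop := ∃ a b c, Ap x a ∧ Ap y b ∧ Ap z c ∧ Big (a * b * c)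

end

variable {I : Type} [DecidableEq I] (P : Set (List I))

def HH (f : ℕ → FreeGroup I) : Prop := ∃ ps, (∀ p ∈ ps, p ∈ P) ∧ ∀ᶠ n in U, DG ps (f n)
def BB (f : ℕ → FreeGroup I) : Prop := ∃ a b : ℤ, ∀ᶠ n : ℕ in U, φ 1 (f n) = a + b * n

variable {P} in
theorem HH.mul {f g} : HH P f → HH P g → HH P (f * g) := fun ⟨ps, a, b⟩ ⟨qs, c, d⟩ =>
  ⟨ps ++ qs, by grind, (b.and d).mono fun _ h => h.1.mul h.2⟩

def Gp : Subgroup (Germ U (FreeGroup I)) where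
  carrier := {x | ∃ f : ℕ → FreeGroup I, x = f ∧ HH P f ∧ BB f}
  one_mem' := ⟨1, rfl, ⟨[], by simp, .of_forall fun _ => rfl⟩, 0, 0, .of_forall fun _ => by simp [φ]⟩
  mul_mem' := by
    rintro _ _ ⟨f, rfl, a, b, c, d⟩ ⟨g, rfl, a', b', c', d'⟩
    exact ⟨f * g, rfl, a.mul a', b + b', c + c', (d.and d').mono fun n h => by simp [h.1, h.2]; ring⟩
  inv_mem' := by
    rintro _ ⟨f, rfl, ⟨ps, a, a'⟩, b, c, d⟩
    exact ⟨f⁻¹, rfl, ⟨ps.reverse, by simpa, a'.mono fun _ h => h.inv⟩, -b, -c, d.mono fun n h => by simp [h]; ring⟩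

variable {P}

def Cls (x : Gp P) (p : List I) : Prop :=
  ∃ g : Gp P, ∃ γ : ℕ → ℤ, (∀ᶠ n in U, γ n ≠ 0) ∧ x.1 = g.1 * ↑(fun n => mk (wd p) ^ γ n) * g.1⁻¹

noncomputable def pw {p : List I} (h : p ∈ P) (a b : ℤ) : Gp P :=
  ⟨↑fun n : ℕ => mk (wd p) ^ (a + b * n), _, rfl, ⟨[p], by simpa, .of_forall fun _ => dg_pow ..⟩,
    a * p.length, b * p.length, .of_forall fun n => by simp; ring⟩

theorem cst {a : ℕ → ℤ} {N : ℕ} (h : ∀ᶠ n in U, (a n).natAbs ≤ N) : ∃ b, ∀ᶠ n in U, a n = b :=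
  let ⟨b, _, e⟩ := (Ultrafilter.eventually_exists_mem_iff (P := fun b n => a n = b) (Set.finite_Icc (-N : ℤ) N)).1
    (h.mono fun n h => ⟨_, ⟨by omega, by omega⟩, rfl⟩)
  ⟨b, e⟩

variable (hP : ∀ p ∈ P, p.Nodup ∧ Odd p.length)
include hP

theorem big_cls {x : Gp P} (h : Big x) : ∃ p ∈ P, Cls x p := by
  obtain ⟨h0, y, z, h1, h2, h3, h4, h5⟩ := h
  obtain ⟨_, f, rfl, hf⟩ := x
  have f1 : ∀ᶠ n in U, f n ≠ 1 := Ultrafilter.eventually_not.2 fun e => h0 (Subtype.ext (Germ.coe_eq.2 e))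
  obtain ⟨r, hr⟩ := (f1.mono fun n => root).choice
  have ex : ∀ y : Gp P, Commute ⟨f, f, rfl, hf⟩ y → ∃ g : ℕ → FreeGroup I, ∃ a : ℕ → ℤ, y.1 = g ∧ HH P g ∧
      ∀ᶠ n in U, g n = r n ^ a n := by
    rintro ⟨_, g, rfl, hg⟩ c
    obtain ⟨a, e⟩ := ((hr.and (Germ.coe_eq.1 (congrArg Subtype.val c.eq))).mono fun n h => h.1 _ h.2).choice
    exact ⟨g, a, rfl, hg.1, e⟩
  obtain ⟨f', c, e, -, hc⟩ := ex _ rfl
  replace hc := (Germ.coe_eq.1 e).trans hc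
  have main : ∀ y : Gp P, Commute ⟨f, f, rfl, hf⟩ y → (¬∃ p ∈ P, Cls ⟨f, f, rfl, hf⟩ p) →
      ∃ a : ℤ, y.1 = (r : Germ U _) ^ a := fun y hy hn => by
    obtain ⟨g, a, e, ⟨ps, g1, g2⟩, g3⟩ := ex y hy
    rcases Ultrafilter.em _ fun n => (a n).natAbs ≤ ps.length with k | k
    · obtain ⟨b, k⟩ := cst k
      exact ⟨b, e.trans (Germ.coe_eq.2 ((g3.and k).mono fun n h => by rw [h.1, h.2]; rfl))⟩
    refine (hn ?_).elim
    obtain ⟨p, p1, k⟩ := (Ultrafilter.eventually_exists_mem_iff ps.finite_toSet).1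
      ((k.and (g2.and (g3.and (f1.and hc)))).mono fun n ⟨a, b, c, d, e⟩ => periodic (fun p h => (hP p (g1 p h)).1)
        (c ▸ b) (fun k => d (by simp [e, k])) (not_le.1 a))
    obtain ⟨G, k⟩ := k.choice
    obtain ⟨ε, k⟩ := k.choice
    have L : (0 : ℤ) < p.length := by exact_mod_cast (hP p (g1 p p1)).2.pos
    obtain ⟨b, hb⟩ := cst (a := fun n => φ 1 (G n) % p.length) (N := p.length) (.of_forall fun n => by
      have := Int.emod_nonneg (φ 1 (G n)) L.ne'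
      have := Int.emod_lt_of_pos (φ 1 (G n)) L
      omega)
    refine ⟨p, g1 p p1, ⟨_, G * fun n => mk (wd p) ^ (-(φ 1 (G n) / p.length)), rfl, HH.mul
      ⟨ps ++ ps.reverse, by simpa, k.mono fun _ h => h.1⟩ ⟨[p], by simpa using g1 p p1, .of_forall fun _ => dg_pow ..⟩,
      b, 0, hb.mono fun n h => by simp [← h, Int.emod_def]; ring⟩, fun n => ε n * c n, ?_, Germ.coe_eq.2 ?_⟩
    · filter_upwards [k, f1, hc] with n a b d e
      exact b (by rw [d, a.2, conj_zpow, ← zpow_mul, e]; simp)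
    · filter_upwards [k, hc] with n a d
      simp only [Pi.mul_apply, Function.comp_apply, d]
      rw [a.2, conj_zpow]
      group
  by_contra hn
  obtain ⟨a, ha⟩ := main y h1 hn
  obtain ⟨b, hb⟩ := main z h2 hn
  obtain ⟨d, e⟩ := (Subgroup.le_zpowers_iff (r : Germ U (FreeGroup I)) (Gp P ⊓ .zpowers r)).1 inf_le_right
  have m : (r : Germ U (FreeGroup I)) ^ d ∈ Gp P := (e ▸ Subgroup.mem_zpowers _ : _ ∈ Gp P ⊓ .zpowers _).1
  have k : ∀ (y : Gp P) (a : ℤ), y.1 = (r : Germ U _) ^ a → ∃ k : ℤ, y = ⟨_, m⟩ ^ k := fun y a h =>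
    let ⟨k, e⟩ := (e ▸ ⟨y.2, a, h.symm⟩ : y.1 ∈ Subgroup.zpowers ((r : Germ U (FreeGroup I)) ^ d))
    ⟨k, Subtype.ext e.symm⟩
  obtain ⟨a, rfl⟩ := k y a ha
  obtain ⟨b, rfl⟩ := k z b hb
  have s : ∀ a : ℤ, Even a → Sq ((⟨_, m⟩ : Gp P) ^ a) := fun _ ⟨k, e⟩ => ⟨⟨_, m⟩ ^ k, by rw [e, zpow_add]⟩
  rw [← zpow_add] at h5
  exact h5 (s _ ((Int.not_even_iff_odd.1 (mt (s a) h3)).add_odd (Int.not_even_iff_odd.1 (mt (s b) h4))))

theorem nsq {p} (h : p ∈ P) {a b : ℤ} (o : Odd a ∨ Odd b) : ¬Sq (pw h a b) := by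
  rintro ⟨⟨_, f, rfl, _, c, d, k⟩, e⟩
  have : ∀ᶠ n : ℕ in U, (2 * d - b * p.length) * n = a * p.length - 2 * c :=
    (k.and (Germ.coe_eq.1 (congrArg Subtype.val e))).mono fun n ⟨a, b⟩ => by
      have := congrArg (φ 1) b
      simp only [φ_mul, a, φ_pow, φ_one] at this
      linarith
  obtain ⟨n, a1, a2⟩ := (this.and ((eventually_gt_atTop (a * p.length - 2 * c).natAbs).filter_mono
    Nat.hyperfilter_le_atTop)).exists
  have a3 := Int.eq_zero_of_dvd_of_natAbs_lt_natAbs (Dvd.intro_left _ a1) (by simpa)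
  have a4 := (mul_eq_zero.1 (a1.trans a3)).resolve_right (by omega)
  have o' : Odd (p.length : ℤ) := by exact_mod_cast (hP p h).2
  rcases o with o | o <;> obtain ⟨_, o⟩ := o.mul o' <;> omega

theorem pw_big {p} (h : p ∈ P) : Big (pw h 1 0) := by
  have c : ∀ a b c d, pw h a b * pw h c d = pw h (a + c) (b + d) := fun a b c d =>
    Subtype.ext (Germ.coe_eq.2 (.of_forall fun n => by simp only [← zpow_add]; congr 1; ring))
  exact ⟨fun e => nsq hP h (b := 0) (.inl odd_one) ⟨1, by simp [e]⟩, pw h 1 0, pw h 0 1, rfl, by simp [Commute, SemiconjBy, c],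
    nsq hP h (.inl odd_one), nsq hP h (.inr odd_one), c .. ▸ nsq hP h (.inl (by simp))⟩

omit hP in
theorem pw_cls {p} (h : p ∈ P) : Cls (pw h 1 0) p := ⟨1, fun n => 1 + 0 * n, by simp, by simp [pw]⟩

theorem Cls.ab {p} (h : p ∈ P) {x y : Gp P} (a : Cls x p) (b : Ap x y) {f : ℕ → FreeGroup I} (e : y.1 = f) :
    ∀ᶠ n in U, Ab (f n) p := by
  obtain ⟨⟨_, g, rfl, _⟩, γ, a1, a2⟩ := a
  obtain ⟨b1, ⟨_, k, rfl, _⟩, b2⟩ := b
  have b3 := congrArg Subtype.val b2.eq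
  simp only [Subgroup.coe_mul, Subgroup.coe_inv, a2, e] at b3
  filter_upwards [a1, Germ.coe_eq.1 b3, Ultrafilter.eventually_not.2 fun k =>
    b1 (Subtype.ext (e.trans (Germ.coe_eq.2 k)))] with n a b c
  refine ab_of (g := k n * g n) (hP p h).1 (List.length_pos_iff.1 (hP p h).2.pos) a c ?_
  simpa [Commute, SemiconjBy, mul_assoc] using b

theorem Cls.ne {p} (h : p ∈ P) {x : Gp P} (a : Cls x p) : Ap x x := by
  refine ⟨fun e => ?_, 1, by simp⟩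
  obtain ⟨g, γ, a1, a2⟩ := a
  rw [e, eq_comm, Subgroup.coe_one, conj_eq_one_iff] at a2
  obtain ⟨n, b, c⟩ := (a1.and (Germ.coe_eq.1 a2)).exists
  have := (φ_pow ..).symm.trans ((congrArg (φ 1) c).trans (show φ 1 (1 : FreeGroup I) = 0 by simp [φ]))
  have k := (hP p h).2.pos
  rw [φ_one, mul_eq_zero] at this
  omega

theorem t_lin {p q r} (hp : p ∈ P) (hq : q ∈ P) (hr : r ∈ P) {x y z : Gp P} (a : Cls x p) (b : Cls y q) (c : Cls z r)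
    (h : T x y z) : ∃ u ∈ P, ∃ α β γ δ : ℤ, α ≠ 0 ∧ β ≠ 0 ∧ γ ≠ 0 ∧ δ ≠ 0 ∧ ∀ i,
      (if i ∈ p then α else 0) + (if i ∈ q then β else 0) + (if i ∈ r then γ else 0) = if i ∈ u then δ else 0 := by
  obtain ⟨⟨_, f, rfl, _⟩, ⟨_, g, rfl, _⟩, ⟨_, k, rfl, _⟩, h1, h2, h3, h4⟩ := h
  obtain ⟨u, hu, d⟩ := big_cls hP h4
  obtain ⟨n, ⟨α, a1, a2⟩, ⟨β, b1, b2⟩, ⟨γ, c1, c2⟩, δ, d1, d2⟩ := ((a.ab hP hp h1 rfl).and ((b.ab hP hq h2 rfl).and
    ((c.ab hP hr h3 rfl).and (d.ab hP hu (d.ne hP hu) (f := f * g * k) rfl)))).exists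
  exact ⟨u, hu, α, β, γ, δ, a1, b1, c1, d1, fun i => by simp [← a2, ← b2, ← c2, ← d2]⟩

theorem Cls.uq {i j} (hi : [i] ∈ P) (hj : [j] ∈ P) {x : Gp P} (a : Cls x [i]) (b : Cls x [j]) : i = j := by
  obtain ⟨f, e, -⟩ := x.2
  obtain ⟨n, ⟨α, a1, a2⟩, β, b1, b2⟩ := ((a.ab hP hi (a.ne hP hi) e).and (b.ab hP hj (a.ne hP hi) e)).exists
  have := (a2 i).symm.trans (b2 i)
  grind

theorem Cls.ap {p} (h : p ∈ P) {x : Gp P} (a : Cls x p) : Ap x (pw h 1 0) := by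
  obtain ⟨g, γ, -, a⟩ := a
  refine ⟨(pw_big hP h).1, g⁻¹, Subtype.ext ?_⟩
  simp only [Subgroup.coe_mul, Subgroup.coe_inv, a, inv_inv, mul_assoc, inv_mul_cancel_left, inv_mul_cancel, mul_one]
  exact Germ.coe_eq.2 (.of_forall fun n => (Commute.refl (mk (wd p))).zpow_zpow ..)

theorem t_of {i j k} (hi : [i] ∈ P) (hj : [j] ∈ P) (hk : [k] ∈ P) (h : [i, j, k] ∈ P) {x y z : Gp P}
    (a : Cls x [i]) (b : Cls y [j]) (c : Cls z [k]) : T x y z :=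
  ⟨_, _, _, a.ap hP hi, b.ap hP hj, c.ap hP hk, (show pw h 1 0 = pw hi 1 0 * pw hj 1 0 * pw hk 1 0 from
    Subtype.ext (Germ.coe_eq.2 (.of_forall fun n => by simp [wd]))) ▸ pw_big hP h⟩

theorem Cls.big {p} (h : p ∈ P) {x : Gp P} (a : Cls x p) : Big x := by
  obtain ⟨-, y, z, -, -, b⟩ := pw_big hP h
  have n := (a.ne hP h).1
  obtain ⟨g, γ, -, a⟩ := a
  have s : ∀ y, Sq (g * y * g⁻¹) → Sq y := fun y ⟨w, e⟩ => ⟨g⁻¹ * w * g, by
    rw [show g⁻¹ * w * g * (g⁻¹ * w * g) = g⁻¹ * (w * w) * g by group, e]; group⟩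
  have c : ∀ a b, Commute x (g * pw h a b * g⁻¹) := fun c d => Subtype.ext (by
    simp only [Subgroup.coe_mul, Subgroup.coe_inv, a, mul_assoc, inv_mul_cancel_left, mul_right_inj]
    rw [← mul_assoc, ← mul_assoc, mul_left_inj]
    exact Germ.coe_eq.2 (.of_forall fun n => (Commute.refl _).zpow_zpow ..))
  refine ⟨n, _, _, c 1 0, c 0 1, mt (s _) (nsq hP h (.inl odd_one)), mt (s _) (nsq hP h (.inr odd_one)),
    fun e => nsq hP h (a := 1) (b := 1) (.inl odd_one) (s _ ?_)⟩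
  rwa [show pw h 1 1 = pw h 1 0 * pw h 0 1 from Subtype.ext (Germ.coe_eq.2 (.of_forall fun n => by
    simp [zpow_add])), ← conj_mul]

end Pool.Agent.H.MP_32acdc_lc
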