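import Pool.Agent.H.MP_32acdc_lc.C
import Pool.Agent.Lib.helper4.GFOD

set_option autoImplicit false

namespace Pool.Agent.H.MP_32acdc_lc

open Function Sum Pool.Agent.Lib.helper4.GFO Pool.Agent.Lib.helper21.Mach Pool.Agent.Lib.helper21.While

def Un {G : Type} [Group G] (a b c l x : G) : Prop := Big x ∧ T x a l ∧ T x b c

theorem interp {E L : Type} (A : L → E → Prop) (B : L → E → E → Prop) :
    ∃ (G : Type) (_ : Group G), TreeFree G ∧ ∃ (a b c : G) (w : L → G) (cl : G → E → Prop),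
      (∀ x d e, cl x d → cl x e → d = e) ∧ (∀ d, ∃ x, cl x d) ∧ (∀ l x, Un a b c (w l) x ↔ ∃ d, cl x d ∧ A l d) ∧
      ∀ l x y d e, cl x d → cl y e → d ≠ e → (T x y (w l) ↔ B l d e ∨ B l e d) := by
  classical
  let P : Set (List (E ⊕ L ⊕ Fin 3)) := {p | (∃ i, p = [i]) ∨ (∃ d, p = [inl d, inr (inr 1), inr (inr 2)]) ∨
    (∃ l d, A l d ∧ p = [inl d, inr (inr 0), inr (inl l)]) ∨
      ∃ l d e, d ≠ e ∧ (B l d e ∨ B l e d) ∧ p = [inl d, inl e, inr (inl l)]}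
  have hP : ∀ p ∈ P, p.Nodup ∧ Odd p.length := by
    rintro _ (⟨i, rfl⟩ | ⟨d, rfl⟩ | ⟨l, d, -, rfl⟩ | ⟨l, d, e, h, -, rfl⟩) <;> simp [*] <;> decide
  have s : ∀ i, [i] ∈ P := fun i => .inl ⟨i, rfl⟩
  have c := fun i => pw_cls (s i)
  refine ⟨Gp P, inferInstance, treeFree _, pw (s (inr (inr 0))) 1 0, pw (s (inr (inr 1))) 1 0, pw (s (inr (inr 2))) 1 0,
    fun l => pw (s (inr (inl l))) 1 0, fun x d => Cls x [inl d], fun x d e a b => inl_injective (a.uq hP (s _) (s _) b),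
    fun d => ⟨_, c _⟩, fun l x => ⟨fun ⟨h1, h2, h3⟩ => ?_, fun ⟨d, h1, h2⟩ => ⟨h1.big hP (s _),
      t_of hP (s _) (s _) (s _) (.inr (.inr (.inl ⟨l, d, h2, rfl⟩))) h1 (c _) (c _),
      t_of hP (s _) (s _) (s _) (.inr (.inl ⟨d, rfl⟩)) h1 (c _) (c _)⟩⟩, fun l x y d e h1 h2 h3 => ⟨fun h => ?_,
      fun h => t_of hP (s _) (s _) (s _) (.inr (.inr (.inr ⟨l, d, e, h3, h, rfl⟩))) h1 h2 (c _)⟩⟩
  · obtain ⟨p, hp, k⟩ := big_cls hP h1
    obtain ⟨u, hu, α, β, γ, δ, a1, a2, a3, a4, a5⟩ := t_lin hP hp (s _) (s _) k (c _) (c _) h2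
    obtain ⟨u', hu', α', β', γ', δ', b1, b2, b3, b4, b5⟩ := t_lin hP hp (s _) (s _) k (c _) (c _) h3
    have k1 : (inr (inr 1) ∈ p ∨ inr (inr 2) ∈ p) ∨ ∃ d, p = [inl d] := by
      rw [or_iff_not_imp_left, not_or]
      intro ⟨n1, n2⟩
      have c1 := b5 (inr (inr 1))
      have c2 := b5 (inr (inr 2))
      simp only [n1, n2, if_false, List.mem_singleton] at c1 c2
      obtain ⟨i, rfl⟩ | ⟨d, rfl⟩ | ⟨l, d, -, rfl⟩ | ⟨l, d, e, h, -, rfl⟩ := hu' <;> simp at c1 c2 <;> try grind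
      refine ⟨d, ?_⟩
      have : ∀ i ∈ p, i = inl d := fun i hi => by
        have := b5 i
        grind
      obtain ⟨i, rfl⟩ | ⟨d, rfl⟩ | ⟨l, d, -, rfl⟩ | ⟨l, d, e, h, -, rfl⟩ := hp <;> simp_all
    have c1 := a5 (inr (inr 0))
    have c2 := a5 (inr (inl l))
    rcases k1 with k1 | ⟨d, rfl⟩
    · exfalso
      have c3 := a5 (inr (inr 1))
      have c4 := a5 (inr (inr 2))
      obtain ⟨i, rfl⟩ | ⟨d, rfl⟩ | ⟨l, d, -, rfl⟩ | ⟨l, d, e, h, -, rfl⟩ := hp <;> simp at k1 <;>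
      obtain ⟨i, rfl⟩ | ⟨d, rfl⟩ | ⟨l, d, -, rfl⟩ | ⟨l, d, e, h, -, rfl⟩ := hu <;> simp at c1 c2 c3 c4 <;> grind
    · have c3 := a5 (inl d)
      obtain ⟨i, rfl⟩ | ⟨d, rfl⟩ | ⟨l, d, h, rfl⟩ | ⟨l, d, e, h, -, rfl⟩ := hu <;> simp at c1 c2 c3 <;> grind
  · obtain ⟨u, hu, α, β, γ, δ, a1, a2, a3, a4, a5⟩ := t_lin hP (s _) (s _) (s _) h1 h2 (c _) h
    have c1 := a5 (inl d)
    have c2 := a5 (inl e)
    have c3 := a5 (inr (inl l))
    obtain ⟨i, rfl⟩ | ⟨d, rfl⟩ | ⟨l, d, h, rfl⟩ | ⟨l, d, e, h, h', rfl⟩ := hu <;> simp at c1 c2 c3 <;> grind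

variable {Q : Type} {K : ℕ}

abbrev Ix (Q : Type) (K : ℕ) := Fin 8 ⊕ Fin (K + 1) ⊕ Q

section
variable {G : Type} [Group G] (w : Ix Q K → G)

def Uu (l : Ix Q K) : G → Prop := Un (w (inl 0)) (w (inl 1)) (w (inl 2)) (w l)
def Ss (x y : G) : Prop := Uu w (inl 3) x ∧ Uu w (inl 3) y ∧ ∃ m, Uu w (inl 4) m ∧ T m x (w (inl 6)) ∧ T m y (w (inl 7))
def Rr (i : Fin (K + 1)) (t x : G) : Prop := Uu w (inl 3) x ∧ T t x (w (inr (inl i)))
def Phi (M : CM Q) (r : Q → Fin (K + 1)) (q0 : Q) (m : ℕ) : Prop :=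
  (∀ q b, M.nxt q b = none → ∀ t, Uu w (inr (inr q)) t → ∀ x, Rr w (r q) t x → ¬Tst (Uu w (inl 5)) (Ss w) b x) ∧
  Step M r (Uu w (inl 5)) (Ss w) (fun _ _ => True) (Rr w) (fun q => Uu w (inr (inr q))) ∧
    Init (Uu w (inl 5)) (Ss w) (Rr w) (fun q => Uu w (inr (inr q))) q0 m

end

section
variable {n : ℕ} {s t u : ∀ (G : Type) [Group G], (Fin n → G) → G}

theorem d_cm (a : Dt s) (b : Dt t) : D fun _ G _ v => Commute (s G v) (t G v) := D.eq (a.mul b) (b.mul a)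
theorem d_3 {P : ∀ (G : Type) [Group G], G → G → G → Prop}
    (h : D fun _ G _ (v : Fin 3 → G) => P G (v 0) (v 1) (v 2))
    (a : Dt s) (b : Dt t) (c : Dt u) : D fun _ G _ v => P G (s G v) (t G v) (u G v) :=
  h.sb (s := ![s, t, u]) fun | 0 => a | 1 => b | 2 => c
theorem d_big (a : Dt s) : D fun _ G _ v => Big (s G v) := d_3 (P := fun _ _ x _ _ => Big x) (by
  unfold Big Sq
  repeat' first | exact Dt.var _ | exact Dt.one | with_reducible first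
    | apply Dt.mul | apply d_cm | apply D.and | apply D.ex | apply D.not | apply D.eq) a a a
theorem d_t : Dt s → Dt t → Dt u → D fun _ G _ v => T (s G v) (t G v) (u G v) := d_3 (P := fun _ _ => T) (by
  unfold T Ap
  repeat' first | exact Dt.var _ | exact Dt.one | with_reducible first
    | apply Dt.mul | apply Dt.inv | apply d_cm | apply d_big | apply D.and | apply D.ex | apply D.not | apply D.eq)
theorem d_u (c : Ix Q K → Fin n) (l : Ix Q K) (a : Dt s) : D fun _ G _ v => Uu (fun i => v (c i)) l (s G v) :=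
  (d_big a).and ((d_t a (.var _) (.var _)).and (d_t a (.var _) (.var _)))
theorem d_r (c : Ix Q K → Fin n) (i) (a : Dt s) (b : Dt t) : D fun _ G _ v => Rr (fun i => v (c i)) i (s G v) (t G v) :=
  (d_u c _ b).and (d_t a b (.var _))
theorem d_s (c : Ix Q K → Fin n) (i j : Fin n) : D fun _ G _ (v : Fin n → G) => Ss (fun i => v (c i)) (v i) (v j) :=
  (d_u c _ (.var _)).and ((d_u c _ (.var _)).and (.ex ((d_u (fun i => (c i).succ) _ (.var _)).and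
    ((d_t (.var _) (.var _) (.var _)).and (d_t (.var _) (.var _) (.var _))))))

theorem d_phi [Finite Q] (M : CM Q) (r : Q → Fin (K + 1)) (q0 : Q) (c : Ix Q K → Fin n) :
    D fun m G _ (v : Fin n → G) => Phi (fun i => v (c i)) M r q0 m := by
  have ts : ∀ b, D fun _ G _ (v : Fin (n + 2) → G) =>
      Tst (Uu (fun i => v (c i).succ.succ) (inl 5)) (Ss fun i => v (c i).succ.succ) b (v 0) := fun
    | true => d_u (fun i => (c i).succ.succ) (inl 5) (.var 0)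
    | false => .ex (d_s (fun i => (c i).succ.succ.succ) _ _)
  refine .and (.conj fun q => .conj fun b => .cimp (.all (.imp (d_u _ _ (.var _)) (.all (.imp (d_r _ _ (.var _) (.var _))
    (.not (ts b))))))) (.and (.conj fun q => .conj fun b => .conj fun q' => .cimp (.all (.imp (d_u _ _ (.var _))
    (.all (.imp (d_r _ _ (.var _) (.var _)) (.imp (ts b) (.ex (.and .true (.and (d_u _ _ (.var _))
    (.conj fun i => ?_)))))))))) (.ex (.and (d_u _ _ (.var _)) (.and (.conj fun i => .ex (.and (d_r _ _ (.var _) (.var _))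
    (d_u _ _ (.var _)))) (.ex (.and (d_r _ _ (.var _) (.var _)) ?_))))))
  · rcases ef M r q b i with _ | _ | _
    · exact .all (.imp (d_r _ _ (.var _) (.var _)) (d_r _ _ (.var _) (.var _)))
    · exact .all (.all (.imp (d_r _ _ (.var _) (.var _)) (.imp (d_s _ _ _) (d_r _ _ (.var _) (.var _)))))
    · exact .all (.imp (d_r _ _ (.var _) (.var _)) (.ex (.and (d_r _ _ (.var _) (.var _)) (d_s _ _ _))))
  · exact D.it (Z := fun _ _ v => Uu (fun i => v (c i).succ) (inl 5)) (S := fun _ _ v => Ss fun i => v (c i).succ)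
      (d_u _ _ (.var _)) (d_s _ _ _)

end

variable {M : CM Q} {r : Q → Fin (K + 1)} {q0 : Q} {m : ℕ}

theorem sound (hr : ∀ q, (r q : ℕ) = M.reg q) {G : Type} [Group G] {w : Ix Q K → G} (h : Phi w M r q0 m) :
    ¬Halts (M.step 0) (q0, init m) := by
  obtain ⟨h1, h2, h3⟩ := h
  rw [halts_iff]
  rintro ⟨j, e⟩
  induction j with
  | zero => cases e
  | succ j ih =>
    obtain ⟨⟨q, σ⟩, k⟩ := Option.ne_none_iff_exists'.1 ih
    obtain ⟨t, -, a, b⟩ := run hr h2 h3 _ _ k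
    obtain ⟨x, b, c⟩ := b (r q)
    rw [iterate_succ_apply', k] at e
    exact h1 q _ (Option.map_eq_none_iff.1 e) t a x b (tst_of hr c)

theorem complete (hr : ∀ q, (r q : ℕ) = M.reg q) (h : ¬Halts (M.step 0) (q0, init m)) :
    ∃ (G : Type) (_ : Group G), TreeFree G ∧ ∃ w : Ix Q K → G, Phi w M r q0 m := by
  obtain ⟨G, _, h0, a, b, c, w, cl, h1, h2, h3, h4⟩ := interp (E := ℕ ⊕ ℕ ⊕ Q × St) (L := Ix Q K)
    (fun l d => (∃ n, l = inl 3 ∧ d = inl n) ∨ (∃ n, l = inl 4 ∧ d = inr (inl n)) ∨ (l = inl 5 ∧ d = inl 0) ∨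
      ∃ c, l = inr (inr c.1) ∧ d = inr (inr c) ∧ ¬Halts (M.step 0) c)
    fun l d e => (∃ n, l = inl 6 ∧ d = inr (inl n) ∧ e = inl n) ∨ (∃ n, l = inl 7 ∧ d = inr (inl n) ∧ e = inl (n + 1)) ∨
      ∃ i c, l = inr (inl i) ∧ d = inr (inr c) ∧ e = inl (c.2 i)
  let w' : Ix Q K → G := Sum.elim (fun i => if h : i.1 < 3 then ![a, b, c] ⟨i, h⟩ else w (inl i)) (w ∘ inr)
  refine ⟨G, _, h0, w', ?_⟩
  have u3 : ∀ x, Uu w' (inl 3) x ↔ ∃ n, cl x (inl n) := fun x => (h3 (inl 3) x).trans (by simp)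
  have u4 : ∀ x, Uu w' (inl 4) x ↔ ∃ n, cl x (inr (inl n)) := fun x => (h3 (inl 4) x).trans (by simp)
  have hZ : ∀ x, Uu w' (inl 5) x ↔ cl x (inl 0) := fun x => (h3 (inl 5) x).trans (by simp)
  have hP : ∀ q x, Uu w' (inr (inr q)) x ↔ ∃ σ, cl x (inr (inr (q, σ))) ∧ ¬Halts (M.step 0) (q, σ) :=
    fun q x => (h3 (inr (inr q)) x).trans (by simp)
  have uq : ∀ x a b, cl x (inl a) → cl x (inl b) → a = b := fun x a b d e => inl_injective (h1 _ _ _ d e)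
  have hS : ∀ x y, Ss w' x y ↔ ∃ a, cl x (inl a) ∧ cl y (inl (a + 1)) := fun x y => by
    simp only [Ss, u3, u4]
    refine ⟨fun ⟨⟨a, a1⟩, ⟨b, b1⟩, m, ⟨k, c1⟩, c2, c3⟩ => ?_, fun ⟨a, a1, a2⟩ => ?_⟩
    · have d2 := (h4 (inl 6) _ _ _ _ c1 a1 (by simp)).1 c2
      have d3 := (h4 (inl 7) _ _ _ _ c1 b1 (by simp)).1 c3
      simp at d2 d3
      exact ⟨a, a1, d2 ▸ d3 ▸ b1⟩
    · obtain ⟨m, c1⟩ := h2 (inr (inl a))
      exact ⟨⟨_, a1⟩, ⟨_, a2⟩, m, ⟨_, c1⟩, (h4 (inl 6) _ _ _ _ c1 a1 (by simp)).2 (by simp),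
        (h4 (inl 7) _ _ _ _ c1 a2 (by simp)).2 (by simp)⟩
  have hR : ∀ t c, cl t (inr (inr c)) ∧ ¬Halts (M.step 0) c → ∀ i x, Rr w' i t x ↔ cl x (inl (c.2 i)) := by
    rintro t ⟨q, σ⟩ ⟨a1, -⟩ i x
    simp only [Rr, u3]
    refine ⟨fun ⟨⟨a, b1⟩, b2⟩ => ?_, fun b1 => ⟨⟨_, b1⟩, (h4 (inr (inl i)) _ _ _ _ a1 b1 (by simp)).2 (by simp)⟩⟩
    have := (h4 (inr (inl i)) _ _ _ _ a1 b1 (by simp)).1 b2
    simp at this
    exact this ▸ b1
  obtain ⟨t, a1⟩ := h2 (inr (inr (q0, init m)))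
  refine ⟨fun q b e t a x d f => ?_, step_of uq (fun _ => h2 _) hZ hS hr _ hP hR fun t c c' a e => ?_,
    init_of uq (fun _ => h2 _) hZ hS _ hP hR ⟨a1, h⟩⟩
  · obtain ⟨σ, a⟩ := (hP ..).1 a
    obtain rfl := tst_iff uq (fun _ => h2 _) hZ hS hr ((hR _ _ a ..).1 d) f
    exact a.2 (.stop (by rw [CM.step, e]; rfl))
  · obtain ⟨u, k⟩ := h2 (inr (inr c'))
    exact ⟨u, trivial, k, fun l => a.2 (.go e l)⟩

end Pool.Agent.H.MP_32acdc_lc
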