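import Pool.Agent.Lib.helper4.GFO

/-! Trees with distances in an ordered abelian group and free actions on them. -/

set_option autoImplicit false

namespace Pool.Agent.H.MP_32acdc_lc

section
variable {L X : Type} [AddCommGroup L] [LinearOrder L] (d : X → X → L)

def IsMetric : Prop :=
  (∀ x y, 0 ≤ d x y) ∧ (∀ x y, d x y = 0 ↔ x = y) ∧ (∀ x y, d x y = d y x) ∧ ∀ x y z, d x z ≤ d x y + d y z

/-- `S` is a segment with endpoints `x` and `y` -/
def Seg (S : Set X) (x y : X) : Prop :=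
  ∃ (a b : L) (f : L → X), a ≤ b ∧ (∀ s ∈ Set.Icc a b, ∀ t ∈ Set.Icc a b, d (f s) (f t) = |s - t|) ∧
    S = f '' Set.Icc a b ∧ (f a = x ∧ f b = y ∨ f a = y ∧ f b = x)

def IsTree : Prop :=
  IsMetric d ∧ (∀ x y, ∃ S, Seg d S x y) ∧ (∀ S T x y z, Seg d S x y → Seg d T x z → ∃ u v, Seg d (S ∩ T) u v) ∧
    ∀ S T x y z, Seg d S x y → Seg d T x z → S ∩ T = {x} → ∃ u v, Seg d (S ∪ T) u v

end

/-- `G` acts by isometries on a nonempty tree, without fixed points and without inversions -/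
def TreeFree (G : Type) [Group G] : Prop :=
  ∃ (L : Type) (_ : AddCommGroup L) (_ : LinearOrder L) (_ : IsOrderedAddMonoid L) (X : Type) (_ : Nonempty X)
    (d : X → X → L) (_ : MulAction G X), IsTree d ∧ (∀ (g : G) x y, d (g • x) (g • y) = d x y) ∧
      ∀ g : G, g ≠ 1 → ∀ x : X, g • x ≠ x ∧ g • g • x ≠ x

end Pool.Agent.H.MP_32acdc_lc
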